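import Pool.Agent.Helper54.SRD.Goals

/-!
# Basic facts on the preferred charts
-/

open Set Filter MeasureTheory
open scoped Manifold ContDiff Topology

noncomputable section

namespace Pool.Agent.Helper54.SRD

variable {E : Type*} [NormedAddCommGroup E] [NormedSpace ℝ E]
variable {M : Type*} [TopologicalSpace M] [ChartedSpace E M]

theorem isOpen_src (x : M) : IsOpen (src E x) := isOpen_extChartAt_source x

theorem isOpen_tgt (x : M) : IsOpen (tgt E x) := isOpen_extChartAt_target x

theorem mem_src (x : M) : x ∈ src E x := mem_extChartAt_source x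

theorem src_mem_nhds (x : M) : src E x ∈ 𝓝 x := (isOpen_src x).mem_nhds (mem_src x)

theorem ch_mem {x p : M} (h : p ∈ src E x) : (ch x p : E) ∈ tgt E x :=
  (extChartAt 𝓘(ℝ, E) x).map_source h

theorem chi_mem {x : M} {z : E} (h : z ∈ tgt E x) : chi x z ∈ src E x :=
  (extChartAt 𝓘(ℝ, E) x).map_target h

theorem chi_ch {x p : M} (h : p ∈ src E x) : chi x (ch x p : E) = p :=
  (extChartAt 𝓘(ℝ, E) x).left_inv h

theorem ch_chi {x : M} {z : E} (h : z ∈ tgt E x) : ch x (chi x z) = z :=
  (extChartAt 𝓘(ℝ, E) x).right_inv h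

theorem continuousOn_ch (x : M) : ContinuousOn (ch x : M → E) (src E x) :=
  continuousOn_extChartAt x

theorem continuousOn_chi (x : M) : ContinuousOn (chi x : E → M) (tgt E x) :=
  continuousOn_extChartAt_symm x

theorem continuousAt_ch {x p : M} (h : p ∈ src E x) : ContinuousAt (ch x : M → E) p :=
  (continuousOn_ch x).continuousAt ((isOpen_src x).mem_nhds h)

theorem continuousAt_chi {x : M} {z : E} (h : z ∈ tgt E x) : ContinuousAt (chi x : E → M) z :=
  (continuousOn_chi x).continuousAt ((isOpen_tgt x).mem_nhds h)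

theorem isOpen_ov (x y : M) : IsOpen (ov x y : Set E) :=
  (continuousOn_chi x).isOpen_inter_preimage (isOpen_tgt x) (isOpen_src y)

theorem mem_ov {x y p : M} (hx : p ∈ src E x) (hy : p ∈ src E y) : (ch x p : E) ∈ ov x y :=
  ⟨ch_mem hx, by rw [chi_ch hx]; exact hy⟩

theorem ov_subset (x y : M) : (ov x y : Set E) ⊆ tgt E x := fun _ h => h.1

theorem tr_ch {x y p : M} (hx : p ∈ src E x) : tr x y (ch x p : E) = ch y p := by
  unfold tr
  rw [chi_ch hx]

theorem tr_mem {x y : M} {z : E} (h : z ∈ ov x y) : tr x y z ∈ (ov y x : Set E) := by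
  refine ⟨ch_mem h.2, ?_⟩
  unfold tr
  rw [chi_ch h.2]
  exact chi_mem h.1

theorem chi_tr {x y : M} {z : E} (h : z ∈ ov x y) : chi y (tr x y z) = chi x z := by
  unfold tr
  rw [chi_ch h.2]

theorem tr_tr {x y : M} {z : E} (h : z ∈ ov x y) : tr y x (tr x y z) = z := by
  show ch x (chi y (tr x y z)) = z
  rw [chi_tr h, ch_chi h.1]

theorem tr_self {x : M} {z : E} (h : z ∈ tgt E x) : tr x x z = z := ch_chi h

theorem continuousOn_tr (x y : M) : ContinuousOn (tr x y : E → E) (ov x y) :=
  (continuousOn_ch y).comp ((continuousOn_chi x).mono (ov_subset x y)) fun _ h => h.2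

variable [IsManifold 𝓘(ℝ, E) ∞ M]

theorem contDiffOn_tr (x y : M) : ContDiffOn ℝ ∞ (tr x y : E → E) (ov x y) := by
  refine (contDiffOn_ext_coord_change (I := 𝓘(ℝ, E)) (n := ∞) y x).mono ?_
  intro z hz
  rw [PartialEquiv.trans_source]
  exact ⟨hz.1, hz.2⟩

theorem contDiffAt_tr {x y : M} {z : E} (h : z ∈ ov x y) :
    ContDiffAt ℝ ∞ (tr x y : E → E) z :=
  (contDiffOn_tr x y).contDiffAt ((isOpen_ov x y).mem_nhds h)

theorem differentiableAt_tr {x y : M} {z : E} (h : z ∈ ov x y) :
    DifferentiableAt ℝ (tr x y : E → E) z :=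
  (contDiffAt_tr h).differentiableAt (by simp)

theorem fderiv_tr_fderiv_tr {x y : M} {z : E} (h : z ∈ ov x y) (u : E) :
    fderiv ℝ (tr y x) (tr x y z) (fderiv ℝ (tr x y) z u) = u := by
  have h1 : HasFDerivAt (tr y x ∘ tr x y : E → E)
      ((fderiv ℝ (tr y x) (tr x y z)).comp (fderiv ℝ (tr x y) z)) z :=
    (differentiableAt_tr (tr_mem h)).hasFDerivAt.comp z (differentiableAt_tr h).hasFDerivAt
  have h2 : HasFDerivAt (tr y x ∘ tr x y : E → E) (ContinuousLinearMap.id ℝ E) z := by
    refine (hasFDerivAt_id z).congr_of_eventuallyEq ?_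
    filter_upwards [(isOpen_ov x y).mem_nhds h] with w hw
    exact tr_tr hw
  have h3 := h1.unique h2
  have h4 := congrArg (fun L : E →L[ℝ] E => L u) h3
  simpa using h4

end Pool.Agent.Helper54.SRD
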