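import Pool.Agent.Helper54.SRD.Final1
import Pool.Agent.Helper10.SRD.Geo
import Pool.Agent.Helper11.SRD.Chg
import Pool.Agent.Helper12.SRD.DB1
import Pool.Agent.Helper14.SRD.Exit
import Pool.Agent.Helper17.SRD.EPS
import Pool.Agent.Helper27.SRD.NM
import Pool.Agent.Helper39.SRD.DER
import Pool.Agent.Helper39.SRD.NMC
import Pool.Agent.Helper40.SRD.Join
import Pool.Agent.Helper41.SRD.NMI
import Pool.Agent.Helper53.SRD.DB2
import Pool.Agent.Helper53.SRD.OPS
import Pool.Agent.Helper64.SRD.Jet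
import Pool.Agent.Helper64.SRD.Min
import Pool.Agent.Helper65.SRD.Int
import Pool.Agent.Helper67.SRD.Seg
import Pool.Agent.Helper72.SRD.Ptw
import Pool.Agent.Helper85.SRD.RCH
import Pool.Agent.Helper88.SRD.Tay
import Pool.Agent.Helper96.SRD.Aff
import Pool.Agent.Helper96.SRD.Lim

/-!
# Assembly of the packets on time minimising curves
-/

open Set Filter MeasureTheory
open scoped Manifold ContDiff Topology

noncomputable section

namespace Pool.Agent.Helper54.SRD

section

variable (E : Type*) [NormedAddCommGroup E] [NormedSpace ℝ E] [FiniteDimensional ℝ E]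
variable (M : Type*) [TopologicalSpace M] [ChartedSpace E M] [IsManifold 𝓘(ℝ, E) ∞ M]

theorem aNM : S_NM E := Pool.Agent.Helper27.SRD.NM E
theorem aNMC : S_NMC E := Pool.Agent.Helper39.SRD.nmc E (aNM E)
theorem aNMI : S_NMI E := Pool.Agent.Helper41.SRD.nmi E (aNM E)
theorem aDB1 : S_DB1 E := Pool.Agent.Helper12.SRD.db1 E
theorem aDB2 : S_DB2 E := Pool.Agent.Helper53.SRD.db2 E
theorem aTAY : S_TAY E := Pool.Agent.Helper88.SRD.tay E
theorem aSEG : S_SEG E := Pool.Agent.Helper67.SRD.SEG E (aTAY E)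
theorem aCHG : S_CHG E M := CHG E M (aNM E)
theorem aINT : S_INT E M := Pool.Agent.Helper65.SRD.INT E M (aCHG E M)
theorem aEXIT : S_EXIT E M := Pool.Agent.Helper14.SRD.exit E M (aINT E M) (aNMC E)
theorem aOPS : S_OPS E M := Pool.Agent.Helper53.SRD.ops E M (aNM E)
theorem aRCH : S_RCH E M := Pool.Agent.Helper85.SRD.RCH E M (aOPS E M)
theorem aAFF : S_AFF E M := Pool.Agent.Helper96.SRD.aff E M (aCHG E M) (aRCH E M)
theorem aCON : S_CON E M := Pool.Agent.Helper40.SRD.con E M (aAFF E M) (aRCH E M) (aNMC E)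
theorem aLIM : S_LIM E M := Pool.Agent.Helper96.SRD.lim E M (aEXIT E M)
theorem aLSC : S_LSC E M := Pool.Agent.Helper14.SRD.lsc E M (aINT E M) (aNMC E) (aNM E)
theorem aMIN : S_MIN E M :=
  Helper64SRD.min_curves E M (aLIM E M) (aLSC E M) (aRCH E M) (aCON E M)
theorem aPTW : S_PTW E M :=
  Pool.Agent.Helper72.SRD.ptw E M (aAFF E M) (aNMI E) (aNMC E) (aMIN E M)
theorem aDER : S_DER E M := Pool.Agent.Helper39.SRD.der E M (aCHG E M) (aINT E M) (aNMC E)
theorem aJET : S_JET E M := Helper64SRD.jet E M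
theorem aEPS : S_EPS E M :=
  Pool.Agent.Helper17.SRD.EPS E M (aLIM E M) (aLSC E M) (aOPS E M)

end

end Pool.Agent.Helper54.SRD
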