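import Pool.Agent.Helper54.SRD.Basic
import Pool.Agent.Helper75.SR.Stmt

/-!
# Chart expressions of tangent vectors, vector fields and Riemannian metrics
-/

open Set Filter MeasureTheory Bundle
open scoped Manifold ContDiff Topology

noncomputable section

namespace Pool.Agent.Helper54.SRD

open Pool.Agent.Helper75.SR (EE VF RMetric Conn SmoothVF DiffAt)

variable {n : ℕ} {M : Type} [TopologicalSpace M] [ChartedSpace (EE n) M]
  [IsManifold (𝓡 n) ∞ M]

theorem src_eq_baseSet (x : M) : src (EE n) x =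
    (trivializationAt (EE n) (TangentSpace (𝓡 n) : M → Type) x).baseSet := by
  unfold src
  rw [extChartAt_source]
  rfl

/-- Coordinates in the chart at `x` of a tangent vector at `p`. -/
def cof (x : M) (p : M) (v : TangentSpace (𝓡 n) p) : EE n :=
  (trivializationAt (EE n) (TangentSpace (𝓡 n) : M → Type) x
    (⟨p, v⟩ : TotalSpace (EE n) (TangentSpace (𝓡 n) : M → Type))).2

/-- The tangent vector at `p` with given coordinates in the chart at `x`. -/
def uof (x : M) (p : M) (u : EE n) : TangentSpace (𝓡 n) p :=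
  (trivializationAt (EE n) (TangentSpace (𝓡 n) : M → Type) x).symm p u

theorem uof_cof {x p : M} (hp : p ∈ src (EE n) x) (v : TangentSpace (𝓡 n) p) :
    uof x p (cof x p v) = v := by
  rw [src_eq_baseSet] at hp
  exact (trivializationAt (EE n) (TangentSpace (𝓡 n) : M → Type) x).symm_apply_apply_mk hp v

theorem cof_uof {x p : M} (hp : p ∈ src (EE n) x) (u : EE n) :
    cof x p (uof x p u) = u := by
  rw [src_eq_baseSet] at hp
  unfold cof uof
  rw [(trivializationAt (EE n) (TangentSpace (𝓡 n) : M → Type) x).apply_mk_symm hp]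

/-- The coordinates are given by the derivative of the transition map. -/
theorem cof_eq (x p : M) (v : TangentSpace (𝓡 n) p) :
    cof x p v = fderiv ℝ (tr p x : EE n → EE n) (ch p p) v := by
  unfold cof
  rw [TangentBundle.trivializationAt_apply]
  simp only [modelWithCornersSelf_coe, range_id, fderivWithin_univ]
  rfl

theorem cof_tr {x y p : M} (hx : p ∈ src (EE n) x) (hy : p ∈ src (EE n) y)
    (v : TangentSpace (𝓡 n) p) :
    cof y p v = fderiv ℝ (tr x y : EE n → EE n) (ch x p) (cof x p v) := by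
  rw [cof_eq, cof_eq]
  have h1 : (ch p p : EE n) ∈ ov p x := mem_ov (mem_src p) hx
  have h2 : (ch x p : EE n) ∈ ov x y := mem_ov hx hy
  have h3 : (tr p x (ch p p) : EE n) = ch x p := tr_ch (mem_src p)
  have hc : HasFDerivAt (tr x y ∘ tr p x : EE n → EE n)
      ((fderiv ℝ (tr x y) (ch x p)).comp (fderiv ℝ (tr p x) (ch p p))) (ch p p) := by
    refine HasFDerivAt.comp (ch p p) ?_ (differentiableAt_tr h1).hasFDerivAt
    rw [h3]
    exact (differentiableAt_tr h2).hasFDerivAt
  have he : (tr p y : EE n → EE n) =ᶠ[𝓝 (ch p p)] (tr x y ∘ tr p x) := by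
    filter_upwards [(isOpen_ov p x).mem_nhds h1] with w hw
    show ch y (chi p w) = ch y (chi x (tr p x w))
    rw [chi_tr hw]
  rw [he.fderiv_eq, hc.fderiv]
  rfl

/-- The chart expression of a metric. -/
def gch (g : RMetric n M) (x : M) (z : EE n) : Bil (EE n) :=
  (trivializationAt (EE n →L[ℝ] EE n →L[ℝ] ℝ)
    (fun p : M => TangentSpace (𝓡 n) p →L[ℝ] TangentSpace (𝓡 n) p →L[ℝ] ℝ) x
    ⟨chi x z, g.inner (chi x z)⟩).2

/-- The chart expression of a vector field. -/
def vch (Y : VF n M) (x : M) (z : EE n) : EE n := cof x (chi x z) (Y (chi x z))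

theorem gch_apply (g : RMetric n M) {x : M} {z : EE n} (hz : z ∈ tgt (EE n) x) (u v : EE n) :
    gch g x z u v = g.inner (chi x z) (uof x (chi x z) u) (uof x (chi x z) v) := by
  have hp := chi_mem hz
  rw [src_eq_baseSet] at hp
  unfold gch
  rw [hom_trivializationAt_apply]
  simp only []
  rw [inCoordinates_apply_eq₂ hp hp (by simp)]
  simp [uof]

theorem gch_ch (g : RMetric n M) {x p : M} (hp : p ∈ src (EE n) x) (u v : EE n) :
    gch g x (ch x p) u v = g.inner p (uof x p u) (uof x p v) := by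
  rw [gch_apply g (ch_mem hp), chi_ch hp]

theorem gch_cof (g : RMetric n M) {x p : M} (hp : p ∈ src (EE n) x)
    (v w : TangentSpace (𝓡 n) p) :
    gch g x (ch x p) (cof x p v) (cof x p w) = g.inner p v w := by
  rw [gch_ch g hp, uof_cof hp, uof_cof hp]

theorem vch_ch (Y : VF n M) {x p : M} (hp : p ∈ src (EE n) x) :
    vch Y x (ch x p) = cof x p (Y p) := by
  unfold vch
  rw [chi_ch hp]

theorem chi_mem_src_of_ov {x y : M} {z : EE n} (hz : z ∈ ov x y) : chi x z ∈ src (EE n) x :=
  chi_mem hz.1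

theorem gch_trans (g : RMetric n M) (x y : M) (z : EE n) (hz : z ∈ ov x y) (u v : EE n) :
    gch g x z u v = gch g y (tr x y z) (fderiv ℝ (tr x y) z u) (fderiv ℝ (tr x y) z v) := by
  have hx : chi x z ∈ src (EE n) x := chi_mem hz.1
  have hy : chi x z ∈ src (EE n) y := hz.2
  have hz' : (ch x (chi x z) : EE n) = z := ch_chi hz.1
  have key : ∀ u : EE n, fderiv ℝ (tr x y) z u = cof y (chi x z) (uof x (chi x z) u) := by
    intro u
    rw [cof_tr hx hy, hz', cof_uof hx]
  rw [gch_apply g hz.1, key, key]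
  have h2 : tr x y z = ch y (chi x z) := rfl
  rw [h2, gch_cof g hy]

theorem vch_trans (Y : VF n M) (x y : M) (z : EE n) (hz : z ∈ ov x y) :
    vch Y y (tr x y z) = fderiv ℝ (tr x y) z (vch Y x z) := by
  have hx : chi x z ∈ src (EE n) x := chi_mem hz.1
  have hy : chi x z ∈ src (EE n) y := hz.2
  have hz' : (ch x (chi x z) : EE n) = z := ch_chi hz.1
  have h2 : tr x y z = ch y (chi x z) := rfl
  rw [h2, vch_ch Y hy, cof_tr hx hy, hz']
  rfl

theorem gch_symm (g : RMetric n M) (x : M) (z : EE n) (hz : z ∈ tgt (EE n) x) (u v : EE n) :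
    gch g x z u v = gch g x z v u := by
  rw [gch_apply g hz, gch_apply g hz, g.symm]

theorem gch_pos (g : RMetric n M) (x : M) (z : EE n) (hz : z ∈ tgt (EE n) x) (u : EE n)
    (hu : u ≠ 0) : 0 < gch g x z u u := by
  rw [gch_apply g hz]
  apply g.pos
  intro h
  apply hu
  have h1 := cof_uof (chi_mem hz) u
  rw [← h1, h, cof_eq]
  exact map_zero _

theorem gch_smooth (g : RMetric n M) (x : M) : ContDiffOn ℝ ∞ (gch g x) (tgt (EE n) x) := by
  have h1 := g.contMDiff.contMDiffOn (s := src (EE n) x)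
  rw [Bundle.Trivialization.contMDiffOn_section_iff
    (trivializationAt (EE n →L[ℝ] EE n →L[ℝ] ℝ)
    (fun p : M => TangentSpace (𝓡 n) p →L[ℝ] TangentSpace (𝓡 n) p →L[ℝ] ℝ) x) (isOpen_src x)
    (by
      rw [src_eq_baseSet]
      intro p hp
      simpa using hp)] at h1
  have h2 : ContMDiffOn 𝓘(ℝ, EE n) (𝓡 n) ∞ (chi x : EE n → M) (tgt (EE n) x) :=
    contMDiffOn_extChartAt_symm x
  have h3 := h1.comp h2 (fun z hz => chi_mem hz)
  rw [contMDiffOn_iff_contDiffOn] at h3
  exact h3

theorem vch_smooth {Y : VF n M} (hY : SmoothVF Y) (x : M) :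
    ContDiffOn ℝ ∞ (vch Y x) (tgt (EE n) x) := by
  have h1 := ContMDiff.contMDiffOn (s := src (EE n) x) hY
  rw [Bundle.Trivialization.contMDiffOn_section_iff
    (trivializationAt (EE n) (TangentSpace (𝓡 n) : M → Type) x) (isOpen_src x)
    (by rw [src_eq_baseSet])] at h1
  have h2 : ContMDiffOn 𝓘(ℝ, EE n) (𝓡 n) ∞ (chi x : EE n → M) (tgt (EE n) x) :=
    contMDiffOn_extChartAt_symm x
  have h3 := h1.comp h2 (fun z hz => chi_mem hz)
  rw [contMDiffOn_iff_contDiffOn] at h3
  exact h3

/-- A Riemannian metric of Mathlib, in charts. -/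
def toAMetric (g : RMetric n M) : AMetric (EE n) M where
  G := gch g
  smooth := gch_smooth g
  symm := gch_symm g
  pos := gch_pos g
  trans := gch_trans g

/-- `g + β ∑ η_a ⊗ η_a` in charts. -/
def gbch (g : RMetric n M) (xi : Fin 3 → VF n M) (β : ℝ) (x : M) (z : EE n) : Bil (EE n) :=
  gch g x z + β • ∑ a : Fin 3,
    (gch g x z (vch (xi a) x z)).smulRight (gch g x z (vch (xi a) x z))

theorem gbch_apply (g : RMetric n M) (xi : Fin 3 → VF n M) (β : ℝ) (x : M) (z u v : EE n) :
    gbch g xi β x z u v = gch g x z u v + β * ∑ a : Fin 3,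
      gch g x z (vch (xi a) x z) u * gch g x z (vch (xi a) x z) v := by
  simp [gbch, ContinuousLinearMap.smulRight_apply, Finset.mul_sum]

/-- The metric `g + β ∑ η_a ⊗ η_a`. -/
def gbMetric (g : RMetric n M) (xi : Fin 3 → VF n M) (hxi : ∀ a, SmoothVF (xi a)) (β : ℝ)
    (hβ : 0 ≤ β) : AMetric (EE n) M where
  G := gbch g xi β
  smooth := by
    intro x
    have h1 := gch_smooth g x
    have h2 : ∀ a, ContDiffOn ℝ ∞ (fun z => gch g x z (vch (xi a) x z)) (tgt (EE n) x) :=
      fun a => h1.clm_apply (vch_smooth (hxi a) x)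
    unfold gbch
    refine h1.add (ContDiffOn.const_smul β (ContDiffOn.sum fun a _ => ?_))
    exact (h2 a).smulRight (h2 a)
  symm := by
    intro x z hz u v
    rw [gbch_apply, gbch_apply, gch_symm g x z hz u v]
    congr 2
    exact Finset.sum_congr rfl fun a _ => mul_comm _ _
  pos := by
    intro x z hz u hu
    rw [gbch_apply]
    have h1 := gch_pos g x z hz u hu
    have h2 : 0 ≤ ∑ a : Fin 3,
      gch g x z (vch (xi a) x z) u * gch g x z (vch (xi a) x z) u :=
      Finset.sum_nonneg fun a _ => mul_self_nonneg _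
    positivity
  trans := by
    intro x y z hz u v
    rw [gbch_apply, gbch_apply, ← gch_trans g x y z hz]
    congr 2
    refine Finset.sum_congr rfl fun a _ => ?_
    rw [vch_trans (xi a) x y z hz, ← gch_trans g x y z hz, ← gch_trans g x y z hz]

theorem gbMetric_mono (g : RMetric n M) (xi : Fin 3 → VF n M) (hxi : ∀ a, SmoothVF (xi a))
    {β β' : ℝ} (hβ : 0 ≤ β) (hβ' : 0 ≤ β') (h : β ≤ β') (x : M) (z u : EE n) :
    (gbMetric g xi hxi β hβ).G x z u u ≤ (gbMetric g xi hxi β' hβ').G x z u u := by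
  show gbch g xi β x z u u ≤ gbch g xi β' x z u u
  rw [gbch_apply, gbch_apply]
  have h2 : 0 ≤ ∑ a : Fin 3,
      gch g x z (vch (xi a) x z) u * gch g x z (vch (xi a) x z) u :=
      Finset.sum_nonneg fun a _ => mul_self_nonneg _
  nlinarith [mul_le_mul_of_nonneg_right h h2]

end Pool.Agent.Helper54.SRD
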