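import Mathlib

/-!
# Minimising curves of Riemannian metrics in charts

Everything is expressed in the preferred charts `extChartAt 𝓘(ℝ, E) x` of a smooth manifold `M`
modelled on a finite dimensional space `E` (without boundary).
-/

open Set Filter MeasureTheory
open scoped Manifold ContDiff Topology

noncomputable section

namespace Pool.Agent.Helper54.SRD

variable {E : Type*} [NormedAddCommGroup E] [NormedSpace ℝ E]
variable {M : Type*} [TopologicalSpace M] [ChartedSpace E M]

/-- Bilinear forms on `E`. -/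
abbrev Bil (E : Type*) [NormedAddCommGroup E] [NormedSpace ℝ E] := E →L[ℝ] E →L[ℝ] ℝ

/-- Bilinear maps `E × E → E`. -/
abbrev BilE (E : Type*) [NormedAddCommGroup E] [NormedSpace ℝ E] := E →L[ℝ] E →L[ℝ] E

/-- The preferred chart at `x`. -/
def ch (x : M) : M → E := extChartAt 𝓘(ℝ, E) x

/-- The inverse of the preferred chart at `x`. -/
def chi (x : M) : E → M := (extChartAt 𝓘(ℝ, E) x).symm

/-- The domain of the chart at `x`. -/
def src (E : Type*) [NormedAddCommGroup E] [NormedSpace ℝ E] {M : Type*} [TopologicalSpace M]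
    [ChartedSpace E M] (x : M) : Set M := (extChartAt 𝓘(ℝ, E) x).source

/-- The image of the chart at `x`. -/
def tgt (E : Type*) [NormedAddCommGroup E] [NormedSpace ℝ E] {M : Type*} [TopologicalSpace M]
    [ChartedSpace E M] (x : M) : Set E := (extChartAt 𝓘(ℝ, E) x).target

/-- The transition map from the chart at `x` to the chart at `y`. -/
def tr (x y : M) : E → E := fun z => ch y (chi x z)

/-- The overlap of the charts at `x` and at `y`, seen in the chart at `x`. -/
def ov (x y : M) : Set E := {z | z ∈ tgt E x ∧ chi x z ∈ src E y}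

/-- A smooth Riemannian metric, given in all preferred charts. -/
structure AMetric (E : Type*) [NormedAddCommGroup E] [NormedSpace ℝ E] (M : Type*)
    [TopologicalSpace M] [ChartedSpace E M] where
  G : M → E → Bil E
  smooth : ∀ x : M, ContDiffOn ℝ ∞ (G x) (tgt E x)
  symm : ∀ x : M, ∀ z ∈ tgt E x, ∀ u v, G x z u v = G x z v u
  pos : ∀ x : M, ∀ z ∈ tgt E x, ∀ u, u ≠ 0 → 0 < G x z u u
  trans : ∀ x y : M, ∀ z ∈ ov x y, ∀ u v,
    G x z u v = G y (tr x y z) (fderiv ℝ (tr x y) z u) (fderiv ℝ (tr x y) z v)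

/-- A smooth torsion free connection, given by its Christoffel symbols in all preferred charts. -/
structure AConn (E : Type*) [NormedAddCommGroup E] [NormedSpace ℝ E] (M : Type*)
    [TopologicalSpace M] [ChartedSpace E M] where
  Γ : M → E → BilE E
  smooth : ∀ x : M, ContDiffOn ℝ ∞ (Γ x) (tgt E x)
  symm : ∀ x : M, ∀ z ∈ tgt E x, ∀ u v, Γ x z u v = Γ x z v u
  trans : ∀ x y : M, ∀ z ∈ ov x y, ∀ u v,
    fderiv ℝ (tr x y) z (Γ x z u v) =
      Γ y (tr x y z) (fderiv ℝ (tr x y) z u) (fderiv ℝ (tr x y) z v)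
        + fderiv ℝ (fderiv ℝ (tr x y)) z u v

/-- Size of a vector for a bilinear form. -/
def nm (B : Bil E) (u : E) : ℝ := Real.sqrt (B u u)

/-- The curve `γ` has speed at most `c` at time `t` for the metric `G`
(in the chart at `γ t`, with difference quotients in a neighbourhood of `t`). -/
def SpeedLE (G : AMetric E M) (c : ℝ) (γ : ℝ → M) (t : ℝ) : Prop :=
  ContinuousAt γ t ∧ ∀ δ > 0, ∀ᶠ p : ℝ × ℝ in 𝓝 (t, t),
    nm (G.G (γ t) (ch (γ t) (γ t))) (ch (γ t) (γ p.2) - ch (γ t) (γ p.1)) ≤ (c + δ) * |p.2 - p.1|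

/-- `y` can be reached from `x` in time `L` at speed at most one. -/
def Reach (G : AMetric E M) (x y : M) (L : ℝ) : Prop :=
  0 ≤ L ∧ ∃ γ : ℝ → M, (∀ t, SpeedLE G 1 γ t) ∧ γ 0 = x ∧ γ L = y

/-- The distance: the least time. -/
def tau (G : AMetric E M) (x y : M) : ℝ := sInf {L | Reach G x y L}

end Pool.Agent.Helper54.SRD
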