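import Pool.Agent.Helper54.SRD.Bridge

/-!
# From curves of bounded speed for `g + β ∑ η_a²`, `β → ∞`, to horizontal curves
-/

open Set Filter MeasureTheory Bundle
open scoped Manifold ContDiff Topology

noncomputable section

namespace Pool.Agent.Helper54.SRD

open Pool.Agent.Helper75.SR (EE VF RMetric Conn SmoothVF DiffAt vel LipCurve HorizontalCurve
  ThreeSasakian len srDist srDiam)

variable {n : ℕ} {M : Type} [TopologicalSpace M] [ChartedSpace (EE n) M]
  [IsManifold (𝓡 n) ∞ M]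

theorem cof_self (p : M) (v : TangentSpace (𝓡 n) p) : cof p p v = v := by
  rw [cof_eq]
  have h1 : (ch p p : EE n) ∈ tgt (EE n) p := ch_mem (mem_src p)
  have he : (tr p p : EE n → EE n) =ᶠ[𝓝 (ch p p)] id := by
    filter_upwards [(isOpen_tgt p).mem_nhds h1] with w hw
    exact tr_self hw
  rw [he.fderiv_eq, fderiv_id]
  rfl

/-- The velocity in the chart at the point. -/
theorem vel_eq {γ : ℝ → M} {t : ℝ} (h : MDifferentiableAt 𝓘(ℝ, ℝ) (𝓡 n) γ t) :
    DifferentiableAt ℝ (fun s => (ch (γ t) (γ s) : EE n)) t ∧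
    (vel γ t : EE n) = deriv (fun s => (ch (γ t) (γ s) : EE n)) t := by
  have h2 := h.differentiableWithinAt_writtenInExtChartAt
  have h3 : writtenInExtChartAt 𝓘(ℝ, ℝ) (𝓡 n) t γ = fun s => (ch (γ t) (γ s) : EE n) := by
    ext1 s
    simp only [writtenInExtChartAt, extChartAt_model_space_eq_id, PartialEquiv.refl_symm,
      PartialEquiv.refl_coe, Function.comp_id, Function.comp_apply]
    rfl
  constructor
  · rw [h3] at h2
    simp only [modelWithCornersSelf_coe, range_id, extChartAt_model_space_eq_id,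
      PartialEquiv.refl_coe, id_eq] at h2
    exact differentiableWithinAt_univ.1 h2
  · unfold vel
    unfold mfderiv
    rw [if_pos h, h3]
    simp only [modelWithCornersSelf_coe, range_id, fderivWithin_univ, extChartAt_model_space_eq_id,
      PartialEquiv.refl_coe, id_eq]
    rfl

/-- Speed bound for the velocity. -/
theorem nm_deriv_le {G : AMetric (EE n) M} {c : ℝ} {γ : ℝ → M} {t : ℝ}
    (h : SpeedLE G c γ t) (hc : 0 ≤ c) :
    nm (G.G (γ t) (ch (γ t) (γ t))) (deriv (fun s => (ch (γ t) (γ s) : EE n)) t) ≤ c := by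
  by_cases hd : DifferentiableAt ℝ (fun s => (ch (γ t) (γ s) : EE n)) t
  · refine le_of_forall_pos_le_add fun δ hδ => ?_
    have h1 := h.2 δ hδ
    have h2 : Tendsto (fun s : ℝ => (t, s)) (𝓝[≠] t) (𝓝 (t, t)) := by
      have : Tendsto (fun s : ℝ => (t, s)) (𝓝 t) (𝓝 (t, t)) :=
        (continuous_const.prodMk continuous_id).tendsto t
      exact this.mono_left nhdsWithin_le_nhds
    have h3 := h2.eventually h1
    have h4 : Tendsto (fun s => nm (G.G (γ t) (ch (γ t) (γ t)))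
        (slope (fun s => (ch (γ t) (γ s) : EE n)) t s)) (𝓝[≠] t)
        (𝓝 (nm (G.G (γ t) (ch (γ t) (γ t))) (deriv (fun s => (ch (γ t) (γ s) : EE n)) t))) := by
      have h5 := hasDerivAt_iff_tendsto_slope.1 hd.hasDerivAt
      have h6 : Continuous (fun u : EE n => nm (G.G (γ t) (ch (γ t) (γ t))) u) := by
        unfold nm
        fun_prop
      exact (h6.tendsto _).comp h5
    refine le_of_tendsto h4 ?_
    filter_upwards [h3, self_mem_nhdsWithin] with s hs hst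
    have hst' : s - t ≠ 0 := sub_ne_zero.2 hst
    have h7 : nm (G.G (γ t) (ch (γ t) (γ t)))
        (slope (fun s => (ch (γ t) (γ s) : EE n)) t s) =
        |s - t|⁻¹ * nm (G.G (γ t) (ch (γ t) (γ t))) (ch (γ t) (γ s) - ch (γ t) (γ t)) := by
      unfold nm slope
      simp only [vsub_eq_sub, map_smul, ContinuousLinearMap.smul_apply, smul_eq_mul]
      rw [← mul_assoc, Real.sqrt_mul (mul_self_nonneg _), Real.sqrt_mul_self_eq_abs, abs_inv]
    rw [h7]
    have h8 : 0 < |s - t| := abs_pos.2 hst'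
    rw [inv_mul_le_iff₀ h8]
    have hs' : nm (G.G (γ t) (ch (γ t) (γ t))) (ch (γ t) (γ s) - ch (γ t) (γ t)) ≤
      (c + δ) * |s - t| := hs
    linarith
  · rw [deriv_zero_of_not_differentiableAt hd]
    simpa [nm] using hc

theorem speed_ae {G : AMetric (EE n) M} {c : ℝ} {γ : ℝ → M} (hNM : S_NM (EE n)) (hc : 0 ≤ c)
    (h : ∀ t, SpeedLE G c γ t) :
    (∀ t, ∃ K : NNReal, ∃ u ∈ 𝓝 t, LipschitzOnWith K (fun s => (ch (γ t) (γ s) : EE n)) u) ∧
    ∀ᵐ t : ℝ, MDifferentiableAt 𝓘(ℝ, ℝ) (𝓡 n) γ t := by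
  have h1 : ∀ t, ∃ K : NNReal, ∃ u ∈ 𝓝 t,
      LipschitzOnWith K (fun s => (ch (γ t) (γ s) : EE n)) u := by
    intro t
    have hz : (ch (γ t) (γ t) : EE n) ∈ tgt (EE n) (γ t) := ch_mem (mem_src _)
    obtain ⟨-, -, -, ⟨m, hm, hm'⟩, -⟩ := hNM (G.G (γ t) (ch (γ t) (γ t)))
      ⟨G.symm _ _ hz, G.pos _ _ hz⟩
    have h2 := (h t).2 1 one_pos
    obtain ⟨u, hu, v, hv, huv⟩ := mem_nhds_prod_iff.1 h2
    refine ⟨⟨(c + 1) / m, by positivity⟩, u ∩ v, inter_mem hu hv, ?_⟩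
    refine LipschitzOnWith.of_dist_le_mul fun a ha b hb => ?_
    have h3 : nm (G.G (γ t) (ch (γ t) (γ t))) (ch (γ t) (γ a) - ch (γ t) (γ b)) ≤
      (c + 1) * |a - b| := huv (show (b, a) ∈ u ×ˢ v from ⟨hb.1, ha.2⟩)
    have h4 := hm' (ch (γ t) (γ a) - ch (γ t) (γ b))
    rw [dist_eq_norm, Real.dist_eq]
    show _ ≤ (c + 1) / m * |a - b|
    rw [div_mul_eq_mul_div, le_div_iff₀ hm]
    linarith
  refine ⟨h1, ?_⟩
  rw [ae_iff]
  refine measure_null_of_locally_null _ fun t ht => ?_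
  obtain ⟨K, u, hu, hK⟩ := h1 t
  have hsrc : ∀ᶠ s in 𝓝 t, γ s ∈ src (EE n) (γ t) :=
    (h t).1 ((isOpen_src (γ t)).mem_nhds (mem_src _))
  obtain ⟨w, hw, hwo, htw⟩ := mem_nhds_iff.1 (inter_mem hu hsrc)
  refine ⟨{s | ¬ MDifferentiableAt 𝓘(ℝ, ℝ) (𝓡 n) γ s} ∩ w,
    inter_mem_nhdsWithin _ (hwo.mem_nhds htw), ?_⟩
  have h5 : ∀ᵐ s : ℝ, s ∈ w →
      DifferentiableWithinAt ℝ (fun s => (ch (γ t) (γ s) : EE n)) w s :=
    (hK.mono (fun s hs => (hw hs).1)).ae_differentiableWithinAt_of_mem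
  rw [ae_iff] at h5
  refine measure_mono_null ?_ h5
  rintro s ⟨hs1, hs2⟩ hs3
  apply hs1
  have h6 : DifferentiableAt ℝ (fun s => (ch (γ t) (γ s) : EE n)) s :=
    (hs3 hs2).differentiableAt (hwo.mem_nhds hs2)
  have h7 : (ch (γ t) (γ s) : EE n) ∈ tgt (EE n) (γ t) := ch_mem (hw hs2).2
  have h8 : ContMDiffOn 𝓘(ℝ, EE n) (𝓡 n) ∞ (chi (γ t) : EE n → M) (tgt (EE n) (γ t)) :=
    contMDiffOn_extChartAt_symm (γ t)
  have h9 : MDifferentiableAt 𝓘(ℝ, EE n) (𝓡 n) (chi (γ t) : EE n → M) (ch (γ t) (γ s)) :=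
    (h8.contMDiffAt ((isOpen_tgt (γ t)).mem_nhds h7)).mdifferentiableAt (by simp)
  have h10 : MDifferentiableAt 𝓘(ℝ, ℝ) (𝓡 n)
      ((chi (γ t) : EE n → M) ∘ fun s => (ch (γ t) (γ s) : EE n)) s :=
    MDifferentiableAt.comp s h9 h6.mdifferentiableAt
  refine h10.congr_of_eventuallyEq ?_
  filter_upwards [hwo.mem_nhds hs2] with r hr
  exact (chi_ch (hw hr).2).symm

theorem gch_self (g : RMetric n M) (p : M) (v w : TangentSpace (𝓡 n) p) :
    gch g p (ch p p) v w = g.inner p v w := by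
  have h := gch_cof g (mem_src p) v w
  rwa [cof_self, cof_self] at h

theorem vch_self (Y : VF n M) (p : M) : vch Y p (ch p p) = Y p := by
  rw [vch_ch Y (mem_src p), cof_self]

/-- A curve which has speed at most one for `g + β_k ∑ η_a²`, `β_k → ∞`, is horizontal of length
at most `π`. -/
theorem horizontal_of_speed {g : RMetric n M} {cov : Conn n M} (S : ThreeSasakian g cov)
    (hNM : S_NM (EE n)) (hOPS : S_OPS (EE n) M) (G : ℕ → AMetric (EE n) M) (β : ℕ → ℝ)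
    (hβ : Tendsto β atTop atTop)
    (hG : ∀ k (x : M) (z u : EE n), z ∈ tgt (EE n) x → (G k).G x z u u = gch g x z u u
      + β k * ∑ a : Fin 3, (gch g x z (vch (S.xi a) x z) u) ^ 2)
    (γ : ℝ → M) (hγ : ∀ k t, SpeedLE (G k) 1 γ t) :
    HorizontalCurve S (γ 0) (γ Real.pi) (fun t => γ (Real.pi * t)) ∧
    len g (fun t => γ (Real.pi * t)) ≤ ENNReal.ofReal Real.pi := by
  have hpi := Real.pi_pos
  -- the speed of the rescaled curve
  have h1 : ∀ k t, SpeedLE (G k) Real.pi (fun t => γ (Real.pi * t)) t := by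
    intro k t
    have h2 := (hOPS (G k)).2.1 1 Real.pi 0 γ t zero_le_one (by
      rw [add_zero]; exact hγ k _)
    simpa [abs_of_pos hpi] using h2
  set γ' : ℝ → M := fun t => γ (Real.pi * t) with hγ'
  obtain ⟨hlip, hae⟩ := speed_ae hNM hpi.le (h1 0)
  have hbound : ∀ t, MDifferentiableAt 𝓘(ℝ, ℝ) (𝓡 n) γ' t →
      (∀ a, g.inner (γ' t) (S.xi a (γ' t)) (vel γ' t) = 0) ∧
      g.inner (γ' t) (vel γ' t) (vel γ' t) ≤ Real.pi ^ 2 := by
    intro t ht
    obtain ⟨-, hv⟩ := vel_eq ht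
    have hz : (ch (γ' t) (γ' t) : EE n) ∈ tgt (EE n) (γ' t) := ch_mem (mem_src _)
    have h3 : ∀ k, g.inner (γ' t) (vel γ' t) (vel γ' t)
        + β k * ∑ a : Fin 3, (g.inner (γ' t) (S.xi a (γ' t)) (vel γ' t)) ^ 2 ≤ Real.pi ^ 2 := by
      intro k
      have h4 := nm_deriv_le (h1 k t) hpi.le
      rw [← hv] at h4
      unfold nm at h4
      rw [Real.sqrt_le_left hpi.le, hG k _ _ _ hz] at h4
      simp only [vch_self] at h4
      have h5 : ∀ v w : TangentSpace (𝓡 n) (γ' t),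
        gch g (γ' t) (ch (γ' t) (γ' t)) v w = g.inner (γ' t) v w := gch_self g (γ' t)
      rw [h5] at h4
      simpa [h5] using h4
    have h0 : 0 ≤ g.inner (γ' t) (vel γ' t) (vel γ' t) := by
      by_cases h : vel (n := n) γ' t = 0
      · rw [h]; simp
      · exact (g.pos _ _ h).le
    set Sg := ∑ a : Fin 3, (g.inner (γ' t) (S.xi a (γ' t)) (vel γ' t)) ^ 2 with hSg
    have hSg0 : 0 ≤ Sg := Finset.sum_nonneg fun a _ => sq_nonneg _
    have hSg1 : Sg = 0 := by
      by_contra hne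
      have hpos : 0 < Sg := lt_of_le_of_ne hSg0 (Ne.symm hne)
      have h6 : Tendsto (fun k => β k * Sg) atTop atTop := hβ.atTop_mul_const hpos
      obtain ⟨k, hk⟩ := (h6.eventually_gt_atTop (Real.pi ^ 2)).exists
      have := h3 k
      linarith
    constructor
    · intro a
      have h7 := (Finset.sum_eq_zero_iff_of_nonneg (fun a _ => sq_nonneg _)).1 hSg1 a
        (Finset.mem_univ a)
      exact pow_eq_zero_iff (two_ne_zero) |>.1 h7
    · have := h3 0
      rw [hSg1] at this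
      linarith
  refine ⟨⟨by simp [hγ'], by simp [hγ'], ⟨?_, ?_⟩, ?_⟩, ?_⟩
  · exact fun t _ => (h1 0 t).1.continuousWithinAt
  · intro t _
    obtain ⟨K, u, hu, hK⟩ := hlip t
    exact ⟨K, u, mem_nhdsWithin_of_mem_nhds hu, hK⟩
  · refine ae_restrict_of_ae ?_
    filter_upwards [hae] with t ht
    exact ⟨ht, (hbound t ht).1⟩
  · unfold len
    calc ∫⁻ t in Icc (0 : ℝ) 1, ENNReal.ofReal (Real.sqrt (g.inner (γ' t) (vel γ' t) (vel γ' t)))
        ≤ ∫⁻ t in Icc (0 : ℝ) 1, ENNReal.ofReal Real.pi := by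
          refine lintegral_mono_ae (ae_restrict_of_ae ?_)
          filter_upwards [hae] with t ht
          refine ENNReal.ofReal_le_ofReal ?_
          rw [Real.sqrt_le_left hpi.le]
          exact (hbound t ht).2
      _ = ENNReal.ofReal Real.pi := by simp

/-- The diameter bound from reachability for `g + β_k ∑ η_a²`. -/
theorem srDiam_le {g : RMetric n M} {cov : Conn n M} (S : ThreeSasakian g cov)
    [CompactSpace M] [T2Space M]
    (hNM : S_NM (EE n)) (hOPS : S_OPS (EE n) M) (hEPS : S_EPS (EE n) M)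
    (G : ℕ → AMetric (EE n) M) (β : ℕ → ℝ) (hmono : Monotone β)
    (hβ : Tendsto β atTop atTop)
    (hG : ∀ k (x : M) (z u : EE n), z ∈ tgt (EE n) x → (G k).G x z u u = gch g x z u u
      + β k * ∑ a : Fin 3, (gch g x z (vch (S.xi a) x z) u) ^ 2)
    (ℓ : ℕ → ℝ) (hℓ : Tendsto ℓ atTop (𝓝 Real.pi))
    (hR : ∀ k (x y : M), Reach (G k) x y (ℓ k)) :
    srDiam S ≤ ENNReal.ofReal Real.pi := by
  unfold srDiam
  refine iSup_le fun x => iSup_le fun y => ?_
  obtain ⟨γ, h1, h2, h3⟩ := hEPS inferInstance inferInstance G ℓ Real.pi Real.pi_pos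
    (by
      intro k m hkm x z hz u
      rw [hG k x z u hz, hG m x z u hz]
      have h2 : 0 ≤ ∑ a : Fin 3, (gch g x z (vch (S.xi a) x z) u) ^ 2 :=
        Finset.sum_nonneg fun a _ => sq_nonneg _
      have := mul_le_mul_of_nonneg_right (hmono hkm) h2
      linarith) hℓ x y (fun k => hR k x y)
  obtain ⟨h4, h5⟩ := horizontal_of_speed S hNM hOPS G β hβ hG γ h1
  rw [h2, h3] at h4
  exact (iInf₂_le _ h4).trans h5

end Pool.Agent.Helper54.SRD
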