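import Pool.Agent.Helper54.SRD.Defs

/-!
# Goals: time minimising curves of a Riemannian metric given in charts
-/

open Set Filter MeasureTheory
open scoped Manifold ContDiff Topology

noncomputable section

namespace Pool.Agent.Helper54.SRD

section Vec

variable (E : Type*) [NormedAddCommGroup E] [NormedSpace ℝ E] [FiniteDimensional ℝ E]

/-- Symmetric positive definite forms. -/
def IsPD {E : Type*} [NormedAddCommGroup E] [NormedSpace ℝ E] (B : Bil E) : Prop :=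
  (∀ u v, B u v = B v u) ∧ ∀ u, u ≠ 0 → 0 < B u u

/-- NM: `nm B` is a norm equivalent to the given one, with Cauchy-Schwarz. -/
def S_NM : Prop :=
  ∀ B : Bil E, IsPD B →
    (∀ u v, nm B (u + v) ≤ nm B u + nm B v) ∧ (∀ (r : ℝ) (u : E), nm B (r • u) = |r| * nm B u) ∧
    (∀ u v, B u v ≤ nm B u * nm B v) ∧ (∃ m > 0, ∀ u, m * ‖u‖ ≤ nm B u) ∧
    ∃ C > 0, ∀ u, nm B u ≤ C * ‖u‖

/-- NMC: local and compact comparison of the norms `nm (G z)`. -/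
def S_NMC : Prop :=
  ∀ (U : Set E) (G : E → Bil E), IsOpen U → ContinuousOn G U → (∀ z ∈ U, IsPD (G z)) →
    (∀ z₀ ∈ U, ∀ δ > 0, ∀ᶠ z in 𝓝 z₀, ∀ u,
      nm (G z) u ≤ (1 + δ) * nm (G z₀) u ∧ nm (G z₀) u ≤ (1 + δ) * nm (G z) u) ∧
    ∀ K ⊆ U, IsCompact K → ∃ m > 0, ∃ C > 0, ∀ z ∈ K, ∀ u, m * ‖u‖ ≤ nm (G z) u ∧
      nm (G z) u ≤ C * ‖u‖

/-- NMI: the norm `nm B` of an integral is at most the integral of the norm, for the derivative of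
a Lipschitz curve. -/
def S_NMI : Prop :=
  ∀ (B : Bil E), IsPD B → ∀ (c : ℝ → E) (a b : ℝ) (K : NNReal), a ≤ b →
    LipschitzOnWith K c (Icc a b) →
    IntervalIntegrable (fun t => nm B (deriv c t)) volume a b ∧
    nm B (c b - c a) ≤ ∫ t in a..b, nm B (deriv c t)

/-- DB1: the lemma of du Bois-Reymond for covector valued functions. -/
def S_DB1 : Prop :=
  ∀ (a b : ℝ) (P : ℝ → E →L[ℝ] ℝ) (K : ℝ), a < b →
    AEStronglyMeasurable P (volume.restrict (Ioo a b)) → (∀ t ∈ Ioo a b, ‖P t‖ ≤ K) →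
    (∀ V : ℝ → E, ContDiff ℝ ∞ V → HasCompactSupport V → tsupport V ⊆ Ioo a b →
      ∫ t in a..b, P t (deriv V t) = 0) →
    ∃ c : E →L[ℝ] ℝ, ∀ᵐ t ∂(volume.restrict (Ioo a b)), P t = c

/-- DB2: the first variation of the energy of a Lipschitz curve. -/
def S_DB2 : Prop :=
  ∀ (U : Set E) (G : E → Bil E) (β : ℝ → E) (a b : ℝ) (K : NNReal), IsOpen U →
    ContDiffOn ℝ ∞ G U → (∀ z ∈ U, IsPD (G z)) → a < b → LipschitzOnWith K β (Icc a b) →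
    (∀ t ∈ Icc a b, β t ∈ U) →
    ∀ V : ℝ → E, ContDiff ℝ ∞ V → HasCompactSupport V → tsupport V ⊆ Ioo a b →
      (∀ᶠ s in 𝓝 (0 : ℝ), ∫ t in a..b, G (β t) (deriv β t) (deriv β t) ≤
        ∫ t in a..b, G (β t + s • V t) (deriv β t + s • deriv V t) (deriv β t + s • deriv V t)) →
      ∫ t in a..b, (fderiv ℝ G (β t) (V t) (deriv β t) (deriv β t)
        + 2 * G (β t) (deriv β t) (deriv V t)) = 0

/-- DBR: a Lipschitz curve in a chart which is a critical point of the energy is of class `C^2` and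
satisfies the Euler-Lagrange equation. -/
def S_DBR : Prop :=
  ∀ (U : Set E) (G : E → Bil E) (β : ℝ → E) (a b : ℝ) (K : NNReal), IsOpen U →
    ContDiffOn ℝ ∞ G U → (∀ z ∈ U, IsPD (G z)) → a < b → LipschitzOnWith K β (Icc a b) →
    (∀ t ∈ Icc a b, β t ∈ U) →
    (∀ V : ℝ → E, ContDiff ℝ ∞ V → HasCompactSupport V → tsupport V ⊆ Ioo a b →
      ∫ t in a..b, (fderiv ℝ G (β t) (V t) (deriv β t) (deriv β t)
        + 2 * G (β t) (deriv β t) (deriv V t)) = 0) →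
    ∀ t ∈ Ioo a b, ContDiffAt ℝ 2 β t ∧
      ∀ u, G (β t) (deriv (deriv β) t) u + fderiv ℝ G (β t) (deriv β t) (deriv β t) u =
        (1 / 2) * fderiv ℝ G (β t) u (deriv β t) (deriv β t)

/-- Half of the second derivative at `s = 0` of `G(c)(c',c')` along
`c = z + s v + s^2 W / 2`, `c' = T + s v' + s^2 W' / 2`. -/
def qf {E : Type*} [NormedAddCommGroup E] [NormedSpace ℝ E] (G : E → Bil E)
    (z T v v' W W' : E) : ℝ :=
  (1 / 2) * fderiv ℝ (fun y => fderiv ℝ G y v T T) z v + 2 * fderiv ℝ G z v v' T + G z v' v'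
    + (1 / 2) * fderiv ℝ G z W T T + G z W' T

/-- The second variation integrand in a chart, for a curve `β`, a field `V` and a connection. -/
def qv {E : Type*} [NormedAddCommGroup E] [NormedSpace ℝ E] (G : E → Bil E) (Γ : E → BilE E)
    (β V : ℝ → E) (t : ℝ) : ℝ :=
  qf G (β t) (deriv β t) (V t) (deriv V t) (-(Γ (β t) (V t) (V t)))
    (-(fderiv ℝ Γ (β t) (deriv β t) (V t) (V t)) - (2 : ℝ) • Γ (β t) (deriv V t) (V t))

/-- A `C^2` unit speed solution of the Euler-Lagrange equation in a chart, at time `t`. -/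
def IsGeoC {E : Type*} [NormedAddCommGroup E] [NormedSpace ℝ E] (G : E → Bil E)
    (β : ℝ → E) (t : ℝ) : Prop :=
  ContDiffAt ℝ 2 β t ∧ G (β t) (deriv β t) (deriv β t) = 1 ∧
    ∀ u, G (β t) (deriv (deriv β) t) u + fderiv ℝ G (β t) (deriv β t) (deriv β t) u =
        (1 / 2) * fderiv ℝ G (β t) u (deriv β t) (deriv β t)

/-- TAY: uniform second order expansion of the energy density along a chart variation. -/
def S_TAY : Prop :=
  ∀ (U : Set E) (G : E → Bil E) (β V W T V' W' : ℝ → E) (a b : ℝ), IsOpen U →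
    ContDiffOn ℝ ∞ G U → (∀ z ∈ U, IsPD (G z)) → a ≤ b →
    ContinuousOn β (Icc a b) → ContinuousOn V (Icc a b) → ContinuousOn W (Icc a b) →
    ContinuousOn T (Icc a b) → ContinuousOn V' (Icc a b) → ContinuousOn W' (Icc a b) →
    (∀ t ∈ Icc a b, β t ∈ U) →
    ∀ ε > 0, ∃ η > 0, ∀ s : ℝ, |s| < η → ∀ r r' : E, ‖r‖ ≤ η * s ^ 2 → ‖r'‖ ≤ η * s ^ 2 →
      ∀ t ∈ Icc a b,
        β t + s • V t + (s ^ 2 / 2) • W t + r ∈ U ∧
        |G (β t + s • V t + (s ^ 2 / 2) • W t + r) (T t + s • V' t + (s ^ 2 / 2) • W' t + r')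
            (T t + s • V' t + (s ^ 2 / 2) • W' t + r')
          - G (β t) (T t) (T t) - s * (fderiv ℝ G (β t) (V t) (T t) (T t)
            + 2 * G (β t) (V' t) (T t)) - s ^ 2 * qf G (β t) (T t) (V t) (V' t) (W t) (W' t)|
          ≤ ε * s ^ 2

/-- SEG: the segment lemma. -/
def S_SEG : Prop :=
  ∀ (U : Set E) (G : E → Bil E) (Γ : E → BilE E) (β V : ℝ → E) (a b : ℝ) (p q : ℝ → E),
    IsOpen U → ContDiffOn ℝ ∞ G U → (∀ z ∈ U, IsPD (G z)) → ContDiffOn ℝ ∞ Γ U →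
    (∀ z ∈ U, ∀ u v, Γ z u v = Γ z v u) → a < b →
    (∀ t ∈ Icc a b, β t ∈ U ∧ IsGeoC G β t ∧ ContDiffAt ℝ 1 V t) →
    ((fun s => p s - (β a + s • V a - (s ^ 2 / 2) • Γ (β a) (V a) (V a)))
      =o[𝓝 0] fun s : ℝ => s ^ 2) →
    ((fun s => q s - (β b + s • V b - (s ^ 2 / 2) • Γ (β b) (V b) (V b)))
      =o[𝓝 0] fun s : ℝ => s ^ 2) →
    ∀ ε > 0, ∀ᶠ s in 𝓝 (0 : ℝ), ∃ (c : ℝ → E) (K : NNReal), LipschitzOnWith K c (Icc a b) ∧
      c a = p s ∧ c b = q s ∧ (∀ t ∈ Icc a b, c t ∈ U) ∧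
      ∫ t in a..b, nm (G (c t)) (deriv c t) ≤ (b - a)
        + s * (G (β b) (V b) (deriv β b) - G (β a) (V a) (deriv β a))
        + (s ^ 2 / 2) * (∫ t in a..b, qv G Γ β V t) + ε * s ^ 2

end Vec

section Man

variable (E : Type*) [NormedAddCommGroup E] [NormedSpace ℝ E] [FiniteDimensional ℝ E]
variable (M : Type*) [TopologicalSpace M] [ChartedSpace E M] [IsManifold 𝓘(ℝ, E) ∞ M]

/-- CHG: the speed can be measured in any chart. -/
def S_CHG : Prop :=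
  ∀ (G : AMetric E M) (c : ℝ) (γ : ℝ → M) (t : ℝ) (x : M), 0 ≤ c → ContinuousAt γ t →
    γ t ∈ src E x →
    (SpeedLE G c γ t ↔ ∀ δ > 0, ∀ᶠ p : ℝ × ℝ in 𝓝 (t, t),
      nm (G.G x (ch x (γ t))) (ch x (γ p.2) - ch x (γ p.1)) ≤ (c + δ) * |p.2 - p.1|)

/-- INT: from the local speed bound to an interval, in one chart. -/
def S_INT : Prop :=
  ∀ (G : AMetric E M) (c : ℝ) (γ : ℝ → M) (a b : ℝ) (x : M) (p : E → ℝ) (K : ℝ), 0 ≤ c → 0 ≤ K →
    a ≤ b → (∀ t ∈ Icc a b, SpeedLE G c γ t ∧ γ t ∈ src E x) →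
    p 0 = 0 → (∀ u v, p (u + v) ≤ p u + p v) →
    (∀ t ∈ Icc a b, ∀ u, p u ≤ K * nm (G.G x (ch x (γ t))) u) →
    p (ch x (γ b) - ch x (γ a) : E) ≤ K * c * (b - a)

/-- EXIT: a curve of bounded speed starting near `x` stays near `x` for a uniform time. -/
def S_EXIT : Prop :=
  ∀ (_ : T2Space M) (G : AMetric E M) (C : ℝ) (x : M) (N : Set M), 0 ≤ C → N ∈ 𝓝 x →
    ∃ N' ∈ 𝓝 x, ∃ r > 0, ∀ (γ : ℝ → M) (t₀ : ℝ), (∀ t, SpeedLE G C γ t) → γ t₀ ∈ N' →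
      ∀ t, |t - t₀| < r → γ t ∈ N

/-- OPS: monotonicity, affine reparametrisation, clamping and gluing. -/
def S_OPS : Prop :=
  ∀ (G : AMetric E M),
    (∀ (c c' : ℝ) (γ : ℝ → M) (t : ℝ), c ≤ c' → SpeedLE G c γ t → SpeedLE G c' γ t) ∧
    (∀ (c a b : ℝ) (γ : ℝ → M) (t : ℝ), 0 ≤ c → SpeedLE G c γ (a * t + b) →
      SpeedLE G (|a| * c) (fun s => γ (a * s + b)) t) ∧
    (∀ (c : ℝ) (γ γ' : ℝ → M) (t : ℝ), γ =ᶠ[𝓝 t] γ' → SpeedLE G c γ t → SpeedLE G c γ' t) ∧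
    (∀ (c : ℝ) (γ₁ γ₂ : ℝ → M) (t : ℝ), 0 ≤ c → γ₁ t = γ₂ t → SpeedLE G c γ₁ t →
      SpeedLE G c γ₂ t → SpeedLE G c (fun s => if s ≤ t then γ₁ s else γ₂ s) t) ∧
    (∀ (c : ℝ) (x : M) (t : ℝ), 0 ≤ c → SpeedLE G c (fun _ => x) t)

/-- RCH: algebra of `Reach`. -/
def S_RCH : Prop :=
  ∀ (G : AMetric E M),
    (∀ x, Reach G x x 0) ∧
    (∀ x y L, Reach G x y L → Reach G y x L) ∧
    (∀ x y z L L', Reach G x y L → Reach G y z L' → Reach G x z (L + L')) ∧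
    (∀ x y L L', Reach G x y L → L ≤ L' → Reach G x y L') ∧
    (∀ (c : ℝ) (γ : ℝ → M) (a b : ℝ), 0 < c → a ≤ b → (∀ t ∈ Icc a b, SpeedLE G c γ t) →
      Reach G (γ a) (γ b) (c * (b - a)))

/-- AFF: straight segments in a chart. -/
def S_AFF : Prop :=
  ∀ (G : AMetric E M) (x : M) (z w : E) (c : ℝ), 0 < c →
    (∀ s ∈ Icc (0 : ℝ) 1, z + s • (w - z) ∈ tgt E x ∧ nm (G.G x (z + s • (w - z))) (w - z) ≤ c) →
    Reach G (chi x z) (chi x w) c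

/-- CON: any two points of a connected manifold can be joined. -/
def S_CON : Prop :=
  ∀ (_ : ConnectedSpace M) (G : AMetric E M) (x y : M), ∃ L, Reach G x y L

/-- Locally uniform convergence of curves along a filter. -/
def LU {M : Type*} [TopologicalSpace M] (𝒰 : Filter ℕ) (γ : ℕ → ℝ → M) (γ' : ℝ → M) : Prop :=
  ∀ t₀, ∀ N ∈ 𝓝 (γ' t₀), ∃ r > 0, ∀ᶠ n in 𝒰, ∀ t, |t - t₀| < r → γ n t ∈ N

/-- LIM: compactness, along an ultrafilter. -/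
def S_LIM : Prop :=
  ∀ (_ : CompactSpace M) (_ : T2Space M) (G : AMetric E M) (𝒰 : Ultrafilter ℕ) (γ : ℕ → ℝ → M) (C : ℝ), 0 ≤ C →
    (∀ n t, SpeedLE G C (γ n) t) → ∃ γ' : ℝ → M, LU (𝒰 : Filter ℕ) γ γ'

/-- LSC: the speed bound passes to the limit. -/
def S_LSC : Prop :=
  ∀ (_ : T2Space M) (G : AMetric E M) (𝒰 : Filter ℕ) (γ : ℕ → ℝ → M) (γ' : ℝ → M) (c : ℕ → ℝ) (c' : ℝ),
    𝒰.NeBot → LU 𝒰 γ γ' → (∀ n, 0 ≤ c n) → Tendsto c 𝒰 (𝓝 c') →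
    (∀ᶠ n in 𝒰, ∀ t, SpeedLE G (c n) (γ n) t) → ∀ t, SpeedLE G c' γ' t

/-- MIN: existence of time minimising curves. -/
def S_MIN : Prop :=
  ∀ (_ : CompactSpace M) (_ : T2Space M) (_ : ConnectedSpace M) (G : AMetric E M),
    (∀ x y, 0 ≤ tau G x y) ∧ (∀ x y L, Reach G x y L → tau G x y ≤ L) ∧
    (∀ x y z, tau G x z ≤ tau G x y + tau G y z) ∧
    ∀ x y, ∃ γ : ℝ → M, (∀ t, SpeedLE G 1 γ t) ∧ γ 0 = x ∧ γ (tau G x y) = y ∧
      ∀ s t, 0 ≤ s → s ≤ t → t ≤ tau G x y → tau G (γ s) (γ t) = t - s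

/-- PTW: the distance is at most the length of a Lipschitz curve in a chart. -/
def S_PTW : Prop :=
  ∀ (_ : CompactSpace M) (_ : T2Space M) (_ : ConnectedSpace M) (G : AMetric E M) (x : M)
    (c : ℝ → E) (a b : ℝ) (K : NNReal), a ≤ b →
    LipschitzOnWith K c (Icc a b) → (∀ t ∈ Icc a b, c t ∈ tgt E x) →
    IntervalIntegrable (fun t => nm (G.G x (c t)) (deriv c t)) volume a b ∧
    tau G (chi x (c a)) (chi x (c b)) ≤ ∫ t in a..b, nm (G.G x (c t)) (deriv c t)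

/-- DER: the chart expression of a curve of speed at most `c`. -/
def S_DER : Prop :=
  ∀ (G : AMetric E M) (c : ℝ) (γ : ℝ → M) (a b : ℝ) (x : M), 0 ≤ c → a ≤ b →
    (∀ t ∈ Icc a b, SpeedLE G c γ t ∧ γ t ∈ src E x) →
    (∃ K : NNReal, LipschitzOnWith K (fun t => (ch x (γ t) : E)) (Icc a b)) ∧
    ∀ t ∈ Ioo a b, nm (G.G x (ch x (γ t))) (deriv (fun t => (ch x (γ t) : E)) t) ≤ c

/-- A `C^2` unit speed geodesic, in all charts, at time `t`. -/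
def IsGeo {E M : Type*} [NormedAddCommGroup E] [NormedSpace ℝ E] [TopologicalSpace M]
    [ChartedSpace E M] (G : AMetric E M) (γ : ℝ → M) (t : ℝ) : Prop :=
  ContinuousAt γ t ∧ ∀ x : M, γ t ∈ src E x → IsGeoC (G.G x) (fun t => (ch x (γ t) : E)) t

/-- GEO: a time minimising curve is a `C^2` geodesic. -/
def S_GEO : Prop :=
  ∀ (_ : CompactSpace M) (_ : T2Space M) (_ : ConnectedSpace M) (G : AMetric E M) (γ : ℝ → M)
    (a b : ℝ), a < b → (∀ t, SpeedLE G 1 γ t) →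
    (∀ s t, a ≤ s → s ≤ t → t ≤ b → tau G (γ s) (γ t) = t - s) →
    ∀ t ∈ Ioo a b, IsGeo G γ t

/-- JET: the 2-jet `z + s v - s^2 Γ(v,v) / 2` does not depend on the chart. -/
def S_JET : Prop :=
  ∀ (C : AConn E M) (x y : M) (z v : E) (α : ℝ → E), z ∈ ov x y →
    ((fun s => α s - (z + s • v - (s ^ 2 / 2) • C.Γ x z v v)) =o[𝓝 0] fun s : ℝ => s ^ 2) →
    ((fun s => tr x y (α s) - (tr x y z + s • fderiv ℝ (tr x y) z v
        - (s ^ 2 / 2) • C.Γ y (tr x y z) (fderiv ℝ (tr x y) z v) (fderiv ℝ (tr x y) z v)))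
      =o[𝓝 0] fun s : ℝ => s ^ 2)

/-- INDEX: the second variation inequality along a time minimising curve. -/
def S_INDEX : Prop :=
  ∀ (_ : CompactSpace M) (_ : T2Space M) (_ : ConnectedSpace M) (G : AMetric E M)
    (C : AConn E M) (γ : ℝ → M) (a b : ℝ) (n : ℕ) (V : Fin n → M → ℝ → E) (S : ℝ → ℝ), a < b →
    (∀ t ∈ Icc a b, IsGeo G γ t) → b - a ≤ tau G (γ a) (γ b) →
    (∀ j, ∀ t ∈ Icc a b, ∀ x : M, γ t ∈ src E x → ContDiffAt ℝ 1 (V j x) t) →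
    (∀ j, ∀ t ∈ Icc a b, ∀ x y : M, γ t ∈ src E x → γ t ∈ src E y →
      V j y t = fderiv ℝ (tr x y) (ch x (γ t)) (V j x t)) →
    (∀ j, ∀ x : M, γ a ∈ src E x → V j x a = 0) →
    (∀ j, ∀ x : M, γ b ∈ src E x → V j x b = 0) →
    ContinuousOn S (Icc a b) →
    (∀ t ∈ Icc a b, ∃ x : M, γ t ∈ src E x ∧ ∀ᶠ t' in 𝓝 t, t' ∈ Icc a b →
      ∑ j, qv (G.G x) (C.Γ x) (fun t => (ch x (γ t) : E)) (V j x) t' ≤ S t') →
    0 ≤ ∫ t in a..b, S t

/-- EPS: passage to the limit in an increasing sequence of metrics. -/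
def S_EPS : Prop :=
  ∀ (_ : CompactSpace M) (_ : T2Space M) (G : ℕ → AMetric E M) (ℓ : ℕ → ℝ) (ℓ' : ℝ), 0 < ℓ' →
    (∀ n m, n ≤ m → ∀ x : M, ∀ z ∈ tgt E x, ∀ u, (G n).G x z u u ≤ (G m).G x z u u) →
    Tendsto ℓ atTop (𝓝 ℓ') → ∀ x y : M, (∀ n, Reach (G n) x y (ℓ n)) →
    ∃ γ : ℝ → M, (∀ n t, SpeedLE (G n) 1 γ t) ∧ γ 0 = x ∧ γ ℓ' = y

end Man

end Pool.Agent.Helper54.SRD
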