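import Pool.Agent.Helper54.SRD.Asm
import Pool.Agent.Helper75.SR.Goals2
import Pool.Agent.Helper75.SR.Cov4

/-!
# The main theorem from the diameter bound `GDiam`
-/

open Set Filter MeasureTheory Bundle
open scoped Manifold ContDiff Topology

noncomputable section

namespace Pool.Agent.Helper54.SRD

open Pool.Agent.Helper75.SR

/-- The M-level theorem from the atlas-level diameter bound. -/
theorem srMain_of (hGD : GDiam) : SRMain := by
  intro n hn M _ _ _ _ _ _ g cov hLC S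
  obtain ⟨A, hA⟩ : ∃ A : ASas (EE n) M, ∀ x, (A.loc x).g = gch g x ∧
      ∀ a, (A.loc x).xi a = vch (S.xi a) x :=
    ⟨toASas hLC S, fun x => ⟨rfl, fun a => rfl⟩⟩
  have hfin : 3 < Module.finrank ℝ (EE n) := by simpa using hn
  obtain ⟨K₀, hK₀, hD⟩ := hGD (EE n) M A hfin
  have hβ : ∀ k : ℕ, (0 : ℝ) ≤ K₀ + k := fun k => by positivity
  refine srDiam_le S (aNM (EE n)) (aOPS (EE n) M) (aEPS (EE n) M) (fun k => A.met (K₀ + k) (hβ k))
    (fun k => K₀ + k) ?_ ?_ ?_
    (fun k => Real.pi * Real.sqrt ((1 + K₀ + k) / (1 + k))) ?_ ?_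
  · intro a b hab
    have : (a : ℝ) ≤ b := by exact_mod_cast hab
    show K₀ + (a : ℝ) ≤ K₀ + b
    linarith
  · exact tendsto_atTop_add_const_left _ _ tendsto_natCast_atTop_atTop
  · intro k x z u hz
    show (A.loc x).Gb (K₀ + k) z u u = _
    rw [LocSas.Gb_apply, (hA x).1]
    congr 2
    refine Finset.sum_congr rfl fun a _ => ?_
    rw [(hA x).2 a, sq]
  · have h1 : Tendsto (fun k : ℕ => (1 + K₀ + (k : ℝ)) / (1 + k)) atTop (𝓝 1) := by
      have h2 : Tendsto (fun k : ℕ => 1 + K₀ * (1 / ((k : ℝ) + 1))) atTop (𝓝 (1 + K₀ * 0)) :=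
        tendsto_const_nhds.add (tendsto_const_nhds.mul tendsto_one_div_add_atTop_nhds_zero_nat)
      simp only [mul_zero, add_zero] at h2
      refine h2.congr fun k => ?_
      have : (k : ℝ) + 1 ≠ 0 := by positivity
      have : (1 : ℝ) + k ≠ 0 := by positivity
      field_simp
      ring
    have h3 := (Real.continuous_sqrt.tendsto 1).comp h1
    have h4 := h3.const_mul Real.pi
    simpa using h4
  · intro k x y
    obtain ⟨htau0, -, -, hmin⟩ := aMIN (EE n) M inferInstance inferInstance inferInstance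
      (A.met (K₀ + k) (hβ k))
    obtain ⟨γ, h1, h2, h3, -⟩ := hmin x y
    have h4 : Reach (A.met (K₀ + k) (hβ k)) x y (tau (A.met (K₀ + k) (hβ k)) x y) :=
      ⟨htau0 x y, γ, h1, h2, h3⟩
    refine (aRCH (EE n) M (A.met (K₀ + k) (hβ k))).2.2.2.1 x y _ _ h4 ?_
    have h5 := hD (K₀ + k) (hβ k) (by linarith [Nat.cast_nonneg (α := ℝ) k]) x y
    set τ := tau (A.met (K₀ + k) (hβ k)) x y
    have h6 : (0 : ℝ) < 1 + K₀ + k := by positivity
    have h6' : (0 : ℝ) < 1 + (K₀ + k) := by positivity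
    have h7 : (0 : ℝ) < 1 + k := by positivity
    have h8 : 1 - K₀ / (1 + (K₀ + k)) = (1 + k) / (1 + K₀ + k) := by
      field_simp
      ring
    rw [h8] at h5
    have h9 : τ ^ 2 ≤ Real.pi ^ 2 * ((1 + K₀ + k) / (1 + k)) := by
      have := mul_le_mul_of_nonneg_right h5 (div_pos h6 h7).le
      have h10 : τ ^ 2 * ((1 + k) / (1 + K₀ + k)) * ((1 + K₀ + k) / (1 + k)) = τ ^ 2 := by
        field_simp
      linarith
    have h11 : (Real.pi * Real.sqrt ((1 + K₀ + k) / (1 + k))) ^ 2 =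
        Real.pi ^ 2 * ((1 + K₀ + k) / (1 + k)) := by
      rw [mul_pow, Real.sq_sqrt (div_pos h6 h7).le]
    refine abs_le_of_sq_le_sq' (by rw [h11]; exact h9) ?_ |>.2
    exact mul_nonneg Real.pi_pos.le (Real.sqrt_nonneg _)

end Pool.Agent.Helper54.SRD
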