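import Pool.Agent.Helper75.SR.Goals2
import Pool.Agent.Helper13.SR.GEL
import Pool.Agent.Helper25.SR.GAlg
import Pool.Agent.Helper54.SRD.Basic

open scoped Manifold ContDiff Topology Matrix
open Set Filter

namespace Pool.Agent.Helper54.SRD.GeoB

open Pool.Agent.Helper75.SR Pool.Agent.Helper54.SRD

theorem phi_rot {E : Type} [NormedAddCommGroup E] [NormedSpace ℝ E] {U : Set E}
    (S S' : LocSas E U) (A : Matrix (Fin 3) (Fin 3) ℝ) (hGam : S'.Gam = S.Gam)
    (hxi : ∀ a, S'.xi a = rotXi A S.xi a) (x : E) (hx : x ∈ U) (a : Fin 3) (v : E) :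
    S'.phi a x v = ∑ b, A a b • S.phi b x v := by
  have hd : ∀ b, DifferentiableAt ℝ (S.xi b) x := fun b =>
    ((S.xi_smooth b).contDiffAt (S.isOpen.mem_nhds hx)).differentiableAt (by simp)
  have h1 : fderiv ℝ (S'.xi a) x = ∑ b, A a b • fderiv ℝ (S.xi b) x := by
    rw [hxi a]
    have : HasFDerivAt (rotXi A S.xi a) (∑ b, A a b • fderiv ℝ (S.xi b) x) x := by
      unfold rotXi
      exact HasFDerivAt.fun_sum fun b _ => (hd b).hasFDerivAt.const_smul (A a b)
    exact this.fderiv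
  unfold LocSas.phi
  simp only [phiOf_apply]
  rw [h1, hGam, hxi a]
  simp only [rotXi, sum_apply, smul_apply, map_sum,
    map_smul, smul_neg, smul_add, Finset.sum_neg_distrib, Finset.sum_add_distrib]

theorem rot_sum {E : Type} [NormedAddCommGroup E] [NormedSpace ℝ E]
    (A : Matrix (Fin 3) (Fin 3) ℝ) (hent : ∀ j k, ∑ i, A i j * A i k = if j = k then 1 else 0)
    (W : Fin 3 → ℝ) (P : Fin 3 → E) :
    ∑ i, W i • P i = ∑ i, (∑ j, A i j * W j) • ∑ j, A i j • P j := by
  have h1 : ∀ i, (∑ j, A i j * W j) • ∑ k, A i k • P k =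
      ∑ j, ∑ k, (A i j * A i k) • (W j • P k) := by
    intro i
    rw [Finset.sum_smul]
    refine Finset.sum_congr rfl fun j _ => ?_
    rw [Finset.smul_sum]
    refine Finset.sum_congr rfl fun k _ => ?_
    module
  simp only [h1]
  rw [Finset.sum_comm]
  refine Finset.sum_congr rfl fun j _ => ?_
  rw [Finset.sum_comm]
  have h2 : ∀ k, ∑ i, (A i j * A i k) • (W j • P k) = if j = k then W j • P k else 0 := by
    intro k
    rw [← Finset.sum_smul, hent j k]
    split_ifs <;> simp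
  simp only [h2]
  simp

theorem geoRot : GGeoRot := by
  intro E _ _ _ M _ _ _ S S' A β γ a b W hA hS h t ht
  obtain ⟨hc, h⟩ := h t ht
  refine ⟨hc, fun x hx => ?_⟩
  obtain ⟨h1, h2, h3, h4⟩ := h x hx
  obtain ⟨e1, e2, e3, e4⟩ := hS x
  have hz : bx E γ x t ∈ tgt E x := ch_mem hx
  refine ⟨h1, by rw [e4]; exact h2, ?_, ?_⟩
  · intro i
    rw [e1, e3]
    simp only [rotXi, map_sum, map_smul, sum_apply,
      smul_apply, smul_eq_mul]
    exact Finset.sum_congr rfl fun j _ => by rw [h3 j]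
  · rw [e2, h4]
    congr 1
    have hp : ∀ i, (S'.loc x).phi i (bx E γ x t) (deriv (bx E γ x) t) =
        ∑ j, A i j • (S.loc x).phi j (bx E γ x t) (deriv (bx E γ x) t) := fun i =>
      phi_rot (S.loc x) (S'.loc x) A e2 e3 _ hz i _
    simp only [hp]
    have hA2 : Aᵀ * A = 1 := mul_eq_one_comm.1 hA.1
    have hent : ∀ j k, ∑ i, A i j * A i k = if j = k then 1 else 0 := by
      intro j k
      have := congrFun (congrFun hA2 j) k
      rw [Matrix.mul_apply] at this
      simp only [Matrix.transpose_apply, Matrix.one_apply] at this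
      exact this
    exact rot_sum A hent W fun j => (S.loc x).phi j (bx E γ x t) (deriv (bx E γ x) t)

section Geo

variable {E : Type} [NormedAddCommGroup E] [NormedSpace ℝ E] [FiniteDimensional ℝ E]
variable {M : Type} [TopologicalSpace M] [ChartedSpace E M] [IsManifold 𝓘(ℝ, E) ∞ M]

theorem deriv_ch {γ : ℝ → M} {t : ℝ} {x y : M} (hc : ContinuousAt γ t) (hx : γ t ∈ src E x)
    (hy : γ t ∈ src E y) (hd : DifferentiableAt ℝ (bx E γ x) t) :
    deriv (bx E γ y) t = fderiv ℝ (tr x y) (bx E γ x t) (deriv (bx E γ x) t) := by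
  have h1 : HasFDerivAt (tr x y : E → E) (fderiv ℝ (tr x y) (bx E γ x t)) (bx E γ x t) :=
    (differentiableAt_tr (mem_ov hx hy)).hasFDerivAt
  have h2 : HasDerivAt ((tr x y : E → E) ∘ bx E γ x)
      (fderiv ℝ (tr x y) (bx E γ x t) (deriv (bx E γ x) t)) t :=
    h1.comp_hasDerivAt t hd.hasDerivAt
  have h3 : bx E γ y =ᶠ[𝓝 t] (tr x y : E → E) ∘ bx E γ x := by
    filter_upwards [hc.eventually ((isOpen_src x).mem_nhds hx)] with t' ht'
    exact (tr_ch ht').symm
  exact (h2.congr_of_eventuallyEq h3).deriv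

/-- The component `η_i(T)` in the chart at `x`. -/
noncomputable def wx (S : ASas E M) (γ : ℝ → M) (x : M) (i : Fin 3) (t : ℝ) : ℝ :=
  (S.loc x).g (bx E γ x t) ((S.loc x).xi i (bx E γ x t)) (deriv (bx E γ x) t)

theorem wx_eq (S : ASas E M) (γ : ℝ → M) (x y : M) (i : Fin 3) (t : ℝ) (hc : ContinuousAt γ t)
    (hx : γ t ∈ src E x) (hy : γ t ∈ src E y) (hd : DifferentiableAt ℝ (bx E γ x) t) :
    wx S γ y i t = wx S γ x i t := by
  have hov : bx E γ x t ∈ (ov x y : Set E) := mem_ov hx hy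
  have h1 : tr x y (bx E γ x t) = bx E γ y t := tr_ch hx
  unfold wx
  rw [S.g_trans x y _ hov, S.xi_trans x y _ hov, h1, deriv_ch hc hx hy hd]

theorem wx_deriv (hA : GAlg) (S : ASas E M) (β : ℝ) (hβ : 0 ≤ β) (γ : ℝ → M) (x : M) (i : Fin 3)
    (t : ℝ) (hgeo : IsGeo (S.met β hβ) γ t) (hx : γ t ∈ src E x) :
    HasDerivAt (wx S γ x i) 0 t ∧
      deriv (deriv (bx E γ x)) t
        + (S.loc x).Gam (bx E γ x t) (deriv (bx E γ x) t) (deriv (bx E γ x) t) =
      (2 * β) • ∑ i, wx S γ x i t • (S.loc x).phi i (bx E γ x t) (deriv (bx E γ x) t) := by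
  obtain ⟨hC2, -, hEL⟩ := hgeo.2 x hx
  have hz : bx E γ x t ∈ tgt E x := ch_mem hx
  have hgel := Pool.Agent.Helper13.SR.gel hA E (tgt E x) (S.loc x) β hβ (bx E γ x t) hz
    (deriv (bx E γ x) t) (deriv (deriv (bx E γ x)) t) (by
      intro V
      have := hEL V
      exact (add_comm _ _).trans this)
  refine ⟨?_, hgel.1⟩
  obtain ⟨C, hC, hC'⟩ := Pool.Agent.Helper13.SR.hasFDerivAt_eta (S.loc x) i hz
  have hd1 : HasDerivAt (bx E γ x) (deriv (bx E γ x) t) t :=
    (hC2.differentiableAt (by simp)).hasDerivAt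
  have hd2 : HasDerivAt (deriv (bx E γ x)) (deriv (deriv (bx E γ x)) t) t := by
    have : ContDiffAt ℝ 1 (deriv (bx E γ x)) t := by
      have h1 : ContDiffAt ℝ 1 (fderiv ℝ (bx E γ x)) t := hC2.fderiv_right (by norm_num)
      have h2 : deriv (bx E γ x) = fun s => fderiv ℝ (bx E γ x) s 1 := by
        funext s
        exact (fderiv_apply_one_eq_deriv).symm
      rw [h2]
      exact h1.clm_apply contDiffAt_const
    exact (this.differentiableAt (by simp)).hasDerivAt
  have h1 : HasDerivAt (fun t' => (S.loc x).g (bx E γ x t') ((S.loc x).xi i (bx E γ x t')))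
      (C (deriv (bx E γ x) t)) t := hC.comp_hasDerivAt t hd1
  have h2 := h1.clm_apply hd2
  have h3 : C (deriv (bx E γ x) t) (deriv (bx E γ x) t) +
      (S.loc x).g (bx E γ x t) ((S.loc x).xi i (bx E γ x t)) (deriv (deriv (bx E γ x)) t) = 0 := by
    have e1 := hC' (deriv (bx E γ x) t) (deriv (bx E γ x) t)
    have e2 := hgel.2 i
    have e3 := (S.loc x).killing _ hz i (deriv (bx E γ x) t) (deriv (bx E γ x) t)
    have e4 := (S.loc x).g_symm _ hz (phiOf (S.loc x).Gam ((S.loc x).xi i) (bx E γ x t)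
      (deriv (bx E γ x) t)) (deriv (bx E γ x) t)
    have e5 : (S.loc x).g (bx E γ x t) ((S.loc x).phi i (bx E γ x t) (deriv (bx E γ x) t))
      (deriv (bx E γ x) t) = 0 := by
      show (S.loc x).g (bx E γ x t) (phiOf (S.loc x).Gam ((S.loc x).xi i) (bx E γ x t)
        (deriv (bx E γ x) t)) (deriv (bx E γ x) t) = 0
      linarith
    rw [map_add] at e2
    linarith
  rw [h3] at h2
  exact h2

theorem geo : GGeo := by
  intro E _ _ _ M _ _ _ S β hβ γ a b hab hgeo
  have hA : GAlg := Pool.Agent.Helper25.SR.gAlg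
  have hdiff : ∀ t ∈ Icc a b, ∀ x : M, γ t ∈ src E x → DifferentiableAt ℝ (bx E γ x) t :=
    fun t ht x hx => (((hgeo t ht).2 x hx).1).differentiableAt (by simp)
  have hcon : ∀ i : Fin 3, ∀ t ∈ Icc a b, wx S γ (γ t) i t = wx S γ (γ a) i a := by
    intro i
    have hD : ∀ t ∈ Icc a b, HasDerivWithinAt (fun t' => wx S γ (γ t') i t') 0 (Icc a b) t := by
      intro t ht
      have h1 := (wx_deriv hA S β hβ γ (γ t) i t (hgeo t ht) (mem_src (γ t))).1
      refine h1.hasDerivWithinAt.congr_of_eventuallyEq ?_ rfl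
      have h2 : ∀ᶠ t' in 𝓝[Icc a b] t, γ t' ∈ src E (γ t) :=
        nhdsWithin_le_nhds ((hgeo t ht).1.eventually ((isOpen_src (γ t)).mem_nhds (mem_src (γ t))))
      filter_upwards [h2, self_mem_nhdsWithin] with t' h3 h4
      exact wx_eq S γ (γ t) (γ t') i t' (hgeo t' h4).1 h3 (mem_src (γ t'))
        (hdiff t' h4 (γ t) h3)
    rcases hab.eq_or_lt with rfl | hlt
    · intro t ht
      have : t = a := le_antisymm ht.2 ht.1
      rw [this]
    refine constant_of_derivWithin_zero (fun t ht => (hD t ht).differentiableWithinAt) ?_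
    intro t ht
    exact (hD t (Ico_subset_Icc_self ht)).derivWithin (uniqueDiffOn_Icc hlt t
      (Ico_subset_Icc_self ht))
  refine ⟨fun i => wx S γ (γ a) i a, fun t ht => ⟨(hgeo t ht).1, fun x hx => ?_⟩⟩
  have hW : ∀ i, wx S γ x i t = wx S γ (γ a) i a := fun i => by
    rw [← hcon i t ht]
    exact wx_eq S γ (γ t) x i t (hgeo t ht).1 (mem_src (γ t)) hx
      (hdiff t ht (γ t) (mem_src (γ t)))
  have h1 := wx_deriv hA S β hβ γ x 0 t (hgeo t ht) hx
  refine ⟨((hgeo t ht).2 x hx).1, ((hgeo t ht).2 x hx).2.1, hW, ?_⟩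
  rw [h1.2]
  congr 1
  exact Finset.sum_congr rfl fun i _ => by rw [hW i]

end Geo

end Pool.Agent.Helper54.SRD.GeoB
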