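import Pool.Agent.Helper67.SRD.Index
import Pool.Agent.Helper75.SR.Asm75
import Pool.Agent.Helper54.SRD.GeoB

/-!
# The main theorem: the sub-Riemannian diameter of a 3-Sasakian manifold of dimension > 3 is
at most `π`
-/

open scoped Manifold ContDiff Topology

namespace Pool.Agent.Helper54.SRD

open Pool.Agent.Helper75.SR

theorem aINDEX (E : Type) [NormedAddCommGroup E] [NormedSpace ℝ E] [FiniteDimensional ℝ E]
    (M : Type) [TopologicalSpace M] [ChartedSpace E M] [IsManifold 𝓘(ℝ, E) ∞ M] : S_INDEX E M :=
  Pool.Agent.Helper67.SRD.INDEX E M (aSEG E) (aJET E M) (aPTW E M) (aMIN E M)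

/-- The diameter bound for the Riemannian metrics `g + β ∑ η_a ⊗ η_a`. -/
theorem gDiam : GDiam :=
  gDiam_of (fun E _ _ _ M _ _ _ => aINDEX E M) GeoB.geo GeoB.geoRot

/-- Every compact connected 3-Sasakian manifold of dimension `n > 3` has sub-Riemannian diameter
at most `π`. -/
theorem srMain : SRMain := srMain_of gDiam

end Pool.Agent.Helper54.SRD
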